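import Pool.Agent.helper22.OB.SpecZ

/-!
# ob:ZT0, the block idempotent as a weight function

Helper file for MP_baa4d7_al (project ob).
-/

set_option autoImplicit false

namespace Pool.Agent.OB

open Pool.Agent.helper58.DC Pool.Agent.DI Pool.Agent.GR

theorem ZT0 (hIDM : IDM_stmt) (hEIN : EIN_stmt) (hBCL : BCL_stmt) (hTI : TI_stmt) : ZT0_stmt := by
  intro p M hM G _ _ χ
  have hB := hBCL G M χ ⊤
  have hI := hIDM G ⊤ (Blk M χ ⊤) hB.sub
  refine ⟨?_, ?_, ?_⟩
  · intro x y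
    exact hI.1.1 y (Subgroup.mem_top y) x
  · exact hEIN p M hM G ⊤ (Blk M χ ⊤) hB
  · intro χ' hχ'
    have hmem : χ' ∈ IrrOn (⊤ : Subgroup G) := (hTI G χ').2 hχ'
    have h1 := hI.2.1 χ' hmem
    by_cases h : Induces M χ' χ
    · rw [if_pos h]
      rw [if_pos ⟨hmem, h⟩] at h1
      exact h1
    · rw [if_neg h]
      rw [if_neg fun hc => h hc.2] at h1
      exact h1

end Pool.Agent.OB
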